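import Pool.Agent.Helper78.OWN.FC

/-! # MP_fc8395_an: the stable sets are unions of smooth leaves of a `C¹` foliation

For every coupling `λ > 0` and every irrational `α ∈ (0,1)`. -/

set_option autoImplicit false

open scoped ContDiff
open Set

namespace Pool.Agent.Results.MP_fc8395_an.EveryCoupling

/-- Points `(x, y, z)` of `ℝ³`. -/
abbrev Pt : Type := ℝ × ℝ × ℝ

/-- The surface `S_λ`: `x² + y² + z² - 2xyz = 1 + λ²/4`. -/
def Surface (lam : ℝ) : Set Pt :=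
  {p | p.1 ^ 2 + p.2.1 ^ 2 + p.2.2 ^ 2 - 2 * p.1 * p.2.1 * p.2.2 = 1 + lam ^ 2 / 4}

/-- The Chebyshev polynomial `U_k(y)` of the second kind, `k ∈ ℤ`. -/
noncomputable def U (k : ℤ) (y : ℝ) : ℝ := (Polynomial.Chebyshev.U ℝ k).eval y

/-- The `k`-th trace map
`T_k(x,y,z) = (x U_k(y) - z U_{k-1}(y), x U_{k-1}(y) - z U_{k-2}(y), y)`. -/
noncomputable def T (k : ℕ) (p : Pt) : Pt :=
  (p.1 * U k p.2.1 - p.2.2 * U (k - 1) p.2.1,
    p.1 * U (k - 1) p.2.1 - p.2.2 * U (k - 2) p.2.1, p.2.1)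

/-- The partial quotient `a_{n+1} = ⌊1/G^n(α)⌋`, `G(x) = {1/x}`, of `α = [a_1, a_2, ...]`. -/
noncomputable def quotient (α : ℝ) (n : ℕ) : ℕ := ⌊((fun x : ℝ => Int.fract x⁻¹)^[n] α)⁻¹⌋₊

/-- `Φ_n = T_{a_n} ∘ ... ∘ T_{a_1}`. -/
noncomputable def Phi (α : ℝ) : ℕ → Pt → Pt
  | 0, p => p
  | n + 1, p => T (quotient α n) (Phi α n p)

/-- The stable set `W^s_λ(α)`: the points of `S_λ` with a bounded orbit `Φ_n(p)`, `n ≥ 1`. -/
def StableSet (lam α : ℝ) : Set Pt :=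
  {p | p ∈ Surface lam ∧ ∃ C : ℝ, ∀ n, 1 ≤ n → ‖Phi α n p‖ ≤ C}

/-- `A` is (the set of the inverses of the charts of) a `C¹` foliated atlas, with one-dimensional
leaves, of the relatively open set `V ⊆ S`: the maps `φ ∈ A` are injective `C¹` immersions
`ℝ² → S` with images covering `V`, they map open sets to relatively open sets of `S`, and every
change of charts is locally of the form `(s, t) ↦ (f(s, t), g(t))`. -/
structure IsC1Foliation (S V : Set Pt) (A : Set (ℝ × ℝ → Pt)) : Prop where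
  covers : V = ⋃ φ ∈ A, range φ
  subset : V ⊆ S
  contDiff : ∀ φ ∈ A, ContDiff ℝ 1 φ
  injective : ∀ φ ∈ A, Function.Injective φ
  immersion : ∀ φ ∈ A, ∀ z, Function.Injective (fderiv ℝ φ z)
  isOpenMap : ∀ φ ∈ A, ∀ O : Set (ℝ × ℝ), IsOpen O → ∃ O' : Set Pt, IsOpen O' ∧ φ '' O = O' ∩ S
  change : ∀ φ ∈ A, ∀ ψ ∈ A, ∀ z w : ℝ × ℝ, φ z = ψ w → ∃ ε > 0, ∃ g : ℝ → ℝ,
    ∀ z' w' : ℝ × ℝ, dist z' z < ε → φ z' = ψ w' → w'.2 = g z'.2

/-- `p` and `q` lie on a common plaque `{φ(s, t) : s ∈ ℝ}`. -/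
def OnPlaque (A : Set (ℝ × ℝ → Pt)) (p q : Pt) : Prop :=
  ∃ φ ∈ A, ∃ t s s' : ℝ, φ (s, t) = p ∧ φ (s', t) = q

/-- The leaf through `p`: the points which are joined to `p` by a finite chain of plaques. -/
def Leaf (A : Set (ℝ × ℝ → Pt)) (p : Pt) : Set Pt :=
  {q | Relation.ReflTransGen (OnPlaque A) p q}

/-- For all `λ > 0` and all irrational `α ∈ (0, 1)` there is a `C¹` foliation of an open set
`V ⊆ S_λ` with `W^s_λ(α) ⊆ V` such that the leaf through any point of `W^s_λ(α)` is contained in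
`W^s_λ(α)` and is a smooth curve: all its plaques are (regular) `C^∞` curves. -/
theorem result {lam : ℝ} (hlam : 0 < lam) {α : ℝ} (hα : Irrational α) (h0 : 0 < α) (h1 : α < 1) :
    ∃ (V : Set Pt) (A : Set (ℝ × ℝ → Pt)), IsC1Foliation (Surface lam) V A ∧
      (∃ O : Set Pt, IsOpen O ∧ V = O ∩ Surface lam) ∧ StableSet lam α ⊆ V ∧
      ∀ p ∈ StableSet lam α, Leaf A p ⊆ StableSet lam α ∧
        ∀ φ ∈ A, ∀ s t : ℝ, φ (s, t) ∈ Leaf A p → ContDiff ℝ ∞ (fun s' : ℝ => φ (s', t)) := by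
  have he : 0 < lam / 2 := by positivity
  have hk : ∀ n, 1 ≤ TM.digit α n := TM.digit_pos hα h0 h1
  have hS : TM.Surf (lam / 2) = Surface lam := by
    ext p
    show TM.FV p = 1 + (lam / 2) ^ 2 ↔ _ = 1 + lam ^ 2 / 4
    rw [show (lam / 2) ^ 2 = lam ^ 2 / 4 by ring]
    exact Iff.rfl
  have hPhi : ∀ n p, Phi α n p = TM.orb (TM.digit α) n p := by
    intro n p
    induction n with
    | zero => rfl
    | succ n ih =>
      show T (quotient α n) (Phi α n p) = TM.T (TM.digit α n) (TM.orb (TM.digit α) n p)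
      rw [ih, TM.T_cheb]
      rfl
  have hW : StableSet lam α = TM.W (lam / 2) (TM.digit α) := by
    ext p
    constructor
    · rintro ⟨hp, C, hC⟩
      refine ⟨by rw [hS]; exact hp, max C ‖p‖, fun n => ?_⟩
      rcases Nat.eq_zero_or_pos n with h | h
      · subst h; exact le_max_right _ _
      · rw [← hPhi]; exact (hC n h).trans (le_max_left _ _)
    · rintro ⟨hp, C, hC⟩
      exact ⟨by rw [← hS]; exact hp, C, fun n _ => by rw [hPhi]; exact hC n⟩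
  obtain ⟨A, hA, hpar, hcov, hsat⟩ := TM.local_theorem he hk
  have hopen : ∀ φ ∈ A, ∀ O : Set (ℝ × ℝ), IsOpen O → ∃ O' : Set Pt, IsOpen O' ∧
      O' ∩ TM.Surf (lam / 2) = φ '' O :=
    fun φ hφ O hO => TM.chart_open he (hA φ hφ) hO
  have hcomp : ∀ φ ∈ A, ∀ ψ ∈ A, ∀ z w : ℝ × ℝ, φ z = ψ w →
      ∃ ε > 0, ∀ z' w' : ℝ × ℝ, dist z' z < ε → z'.2 = z.2 → ψ w' = φ z' → w'.2 = w.2 := by
    intro φ hφ ψ hψ z w hzw
    obtain ⟨ε, hε, h⟩ := TM.parallel he (hA ψ hψ) (hA φ hφ)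
      (fun z w h => hpar ψ hψ φ hφ z w h) hzw.symm
    refine ⟨ε, hε, fun z' w' hz' hz2 hw' => ?_⟩
    obtain ⟨w'', hw1, hw2⟩ := h z' hz' hz2
    have : w' = w'' := (hA ψ hψ).inj (hw'.trans hw1.symm)
    rw [this, hw2]
  have hfol : IsC1Foliation (Surface lam) (⋃ φ ∈ A, range φ) A := by
    refine ⟨rfl, ?_, fun φ hφ => (hA φ hφ).smooth, fun φ hφ => (hA φ hφ).inj,
      fun φ hφ => (hA φ hφ).imm, ?_, ?_⟩
    · refine iUnion₂_subset fun φ hφ => ?_
      rintro _ ⟨z, rfl⟩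
      rw [← hS]; exact (hA φ hφ).mem z
    · intro φ hφ O hO
      obtain ⟨O', h1, h2⟩ := hopen φ hφ O hO
      exact ⟨O', h1, by rw [← hS, h2]⟩
    · intro φ hφ ψ hψ z w hzw
      exact Helper78.OWN.change_form (S := TM.Surf (lam / 2)) (fun z => (hA φ hφ).mem z)
        (hA φ hφ).smooth.continuous (hA ψ hψ).inj (hopen ψ hψ univ isOpen_univ)
        (fun z w h => hcomp φ hφ ψ hψ z w h) hzw
  have hleaf : ∀ p ∈ StableSet lam α, Leaf A p ⊆ StableSet lam α := by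
    intro p hp q hq
    rw [hW] at hp ⊢
    have hq' : Relation.ReflTransGen (OnPlaque A) p q := hq
    induction hq' with
    | refl => exact hp
    | tail _ h ih =>
      obtain ⟨φ, hφ, t, s, s', h1, h2⟩ := h
      rw [← h2]
      exact (hsat φ hφ t ⟨s, by rw [h1]; exact ih (by assumption)⟩).1 s'
  refine ⟨⋃ φ ∈ A, range φ, A, hfol, ?_, ?_, fun p hp => ⟨hleaf p hp, ?_⟩⟩
  · choose! O' h1 h2 using fun φ (hφ : φ ∈ A) => hopen φ hφ univ isOpen_univ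
    refine ⟨⋃ φ ∈ A, O' φ, isOpen_biUnion fun φ hφ => h1 φ hφ, ?_⟩
    rw [iUnion₂_inter]
    refine iUnion₂_congr fun φ hφ => ?_
    rw [← hS, h2 φ hφ, image_univ]
  · intro p hp
    rw [hW] at hp
    obtain ⟨φ, hφ, h⟩ := hcov p hp
    exact mem_biUnion hφ ⟨0, h⟩
  · intro φ hφ s t h
    have h2 := hleaf p hp h
    rw [hW] at h2
    exact (hsat φ hφ t ⟨s, h2⟩).2

end Pool.Agent.Results.MP_fc8395_an.EveryCoupling
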